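import Pool.Agent.Q238.DT

/-!
# MP_5dc1dd_co, Q1: an irreducible double tiling of the plane by congruent rectangles
-/

open Pool.Agent.Q238.DT

namespace Pool.Agent.Results.MP_5dc1dd_co.Parallelogram

/-- The closed `3 × 1` rectangle. -/
def P : Set ℂ := {z | 0 ≤ z.re ∧ z.re ≤ 3 ∧ 0 ≤ z.im ∧ z.im ≤ 1}

theorem P_eq : P = rect 0 0 3 1 := by
  ext z
  rw [mem_rect]
  simp only [P, Set.mem_ofPred_eq]
  push_cast
  constructor
  · rintro ⟨h1, h2, h3, h4⟩
    refine ⟨h1, by linarith, h3, by linarith⟩
  · rintro ⟨h1, h2, h3, h4⟩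
    refine ⟨h1, by linarith, h3, by linarith⟩

/-- **Q1 of MP_5dc1dd_co, positive answer with density `2`.**  The closed `3 × 1` rectangle `P` is a
parallelogram and the prototile of an irreducible monohedral multiple tiling of the plane of
density `2`. -/
theorem result : IsParallelogram P ∧
    ∃ (ι : Type) (T : ι → Set ℂ), Countable ι ∧
      IsMonohedral T P ∧ IsMultipleTiling T 2 ∧ ¬ IsReducible T := by
  rw [P_eq]
  exact ⟨rect_par, _, TR, inferInstance, TR_mono, TR_tiling, TR_irreducible⟩

end Pool.Agent.Results.MP_5dc1dd_co.Parallelogram
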