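import Pool.Agent.Q238.DT

/-!
# MP_5dc1dd_co, Q2: an irreducible double tiling of the plane by congruent triangles
-/

open Pool.Agent.Q238.DT

namespace Pool.Agent.Results.MP_5dc1dd_co.Triangle

/-- The closed right triangle with vertices `0`, `3`, `i` (legs `3` and `1`). -/
def P : Set ℂ := {z | 0 ≤ z.re ∧ 0 ≤ z.im ∧ z.re + 3 * z.im ≤ 3}

theorem P_eq : P = tri 0 0 3 1 false := by
  ext z
  simp only [P, tri, Set.mem_ofPred_eq]
  push_cast
  constructor
  · rintro ⟨h1, h2, h3⟩
    refine ⟨h1, h2, by linarith⟩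
  · rintro ⟨h1, h2, h3⟩
    refine ⟨h1, h2, by linarith⟩

/-- **Q2 of MP_5dc1dd_co, positive answer with density `2`.**  The closed right triangle `P` with
legs `3` and `1` is the prototile of an irreducible monohedral multiple tiling of the plane of
density `2`. -/
theorem result : IsTriangle P ∧
    ∃ (ι : Type) (T : ι → Set ℂ), Countable ι ∧
      IsMonohedral T P ∧ IsMultipleTiling T 2 ∧ ¬ IsReducible T := by
  rw [P_eq]
  exact ⟨tri_tri, _, TT, inferInstance, TT_mono, TT_tiling, TT_irreducible⟩

end Pool.Agent.Results.MP_5dc1dd_co.Triangle
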